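import Pool.Agent.W307.QF.Stm
import Pool.Agent.W125.RS.ExpK

/-!
# Project QF: expansion of the moments into symbols, with weights (`EXPE`)
-/

set_option autoImplicit false

namespace Pool.Agent.W790.QF

open Finset Pool.Agent.W262.RK Pool.Agent.W108.RK Pool.Agent.W762.RK2 Pool.Agent.W307.RS
open Pool.Agent.W307.QF Pool.Agent.W125.RS

variable {J : Type} [Fintype J] [DecidableEq J] {z y k : ℕ}

lemma prod_rr {ι : Type} [Fintype ι] [DecidableEq ι] (ρ : ι → ℕ → ℕ) (l : Pr z y → Option ι) :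
    ∏ i, rr (ρ i) (Dl l i) = ∏ p : Pr z y, (l p).elim 1 fun i => (ρ i p : ℝ) := by
  have h1 : ∀ i, rr (ρ i) (Dl l i) = ∏ p : Pr z y,
      if l p = some i then (ρ i p : ℝ) else 1 := by
    intro i
    unfold rr Dl
    rw [prod_pf _ fun p : ℕ => (ρ i p : ℝ)]
    simp only [decide_eq_true_eq]
  rw [Finset.prod_congr rfl fun i _ => h1 i, Finset.prod_comm]
  refine Finset.prod_congr rfl fun p _ => ?_
  cases h : l p with
  | none => simp
  | some j => simp

/-- the weight of the first component -/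
noncomputable def Wt (ρ : J → ℕ → ℕ) (p : Pr z y) (x : Option (J × (Fin k → Bool × Bool))) : ℝ :=
  x.elim 1 fun t => (ρ t.1 p : ℝ)

lemma lhs_term (κ : J → Fin 3 → ℤ) (c : ℕ) (ξ : Pr z y → Option (J × (Fin k → Bool × Bool))) :
    (∏ p ∈ (∏ j, SK ξ j).primeFactors, ((∏ a, Il (c3 J) κ (SK ξ) (E1 a ξ, E2 a ξ) true p) +
        ∏ a, Il (c3 J) κ (SK ξ) (E1 a ξ, E2 a ξ) false p) / 2) * ∏ j, gw 1 c (SK ξ j) =
      ∏ p, TmK κ c ξ p := by
  have h2 : ∏ j, gw 1 c (SK ξ j) = ∏ p : Pr z y, ((ξ p).map Prod.fst).elim 1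
      fun _ => 1 / ((p : ℝ) - c) := prod_gw (fun _ => 1) c _
  have h3 : ∏ j, SK ξ j = nb fun p => ((ξ p).map Prod.fst).isSome := prod_Dl _
  rw [h2, h3, prod_pf _ fun p => ((∏ a, Il (c3 J) κ (SK ξ) (E1 a ξ, E2 a ξ) true p) +
    ∏ a, Il (c3 J) κ (SK ξ) (E1 a ξ, E2 a ξ) false p) / 2, ← Finset.prod_mul_distrib]
  refine Finset.prod_congr rfl fun p _ => ?_
  unfold TmK
  cases hx : ξ p with
  | none => simp
  | some r =>
    have h4 : ∀ (neg : Bool) (a : Fin k), Il (c3 J) κ (SK ξ) (E1 a ξ, E2 a ξ) neg p =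
        ind (LL 3 (κ r.1) neg p (r.2 a).1 (r.2 a).2 (sgn p (E1 a ξ)) (sgn p (E2 a ξ))) := by
      intro neg a
      unfold Il
      have e1 : dv p (E1 a ξ : ℤ) = (r.2 a).1 := by
        have : B1 a (ξ p) = (r.2 a).1 := by rw [hx]; rfl
        rw [← this]
        unfold dv
        rw [Bool.eq_iff_iff, decide_eq_true_iff, Int.natCast_dvd_natCast]
        exact dvd_nb _ p
      have e2 : dv p (E2 a ξ : ℤ) = (r.2 a).2 := by
        have : B2 a (ξ p) = (r.2 a).2 := by rw [hx]; rfl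
        rw [← this]
        unfold dv
        rw [Bool.eq_iff_iff, decide_eq_true_iff, Int.natCast_dvd_natCast]
        exact dvd_nb _ p
      have e3 : ∀ j, (p : ℕ) ∣ SK ξ j ↔ j = r.1 := by
        intro j
        unfold SK Dl
        rw [dvd_nb, decide_eq_true_iff]
        show (ξ p).map Prod.fst = some j ↔ j = r.1
        rw [hx]
        simp [eq_comm]
      congr 1
      simp only [e1, e2, e3, forall_eq]
      rfl
    simp only [h4]
    simp only [Option.map_some, Option.isSome_some, if_true, Option.elim]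
    ring

lemma lhsR (κ : J → Fin 3 → ℤ) (ρ : J → ℕ → ℕ) (c : ℕ) :
    ∑ s ∈ Tup J z y, NBK k κ s * ∏ j, (gw 1 c (s j) * rr (ρ j) (s j)) =
      ∑ ξ : Pr z y → Option (J × (Fin k → Bool × Bool)), ∏ p, (Wt ρ p (ξ p) * TmK κ c ξ p) := by
  have h1 : ∀ s ∈ Tup J z y, NBK k κ s * ∏ j, (gw 1 c (s j) * rr (ρ j) (s j)) =
      ∑ d ∈ Fintype.piFinset (fun _ : Fin k => (∏ j, s j).divisors ×ˢ (∏ j, s j).divisors),
        (∏ p ∈ (∏ j, s j).primeFactors, ((∏ a, Il (c3 J) κ s (d a) true p) +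
        ∏ a, Il (c3 J) κ s (d a) false p) / 2) * ∏ j, (gw 1 c (s j) * rr (ρ j) (s j)) := by
    intro s hs
    rw [NBK_eq κ, Finset.sum_mul]
  rw [Finset.sum_congr rfl h1, sum_bigK fun s d =>
    (∏ p ∈ (∏ j, s j).primeFactors, ((∏ a, Il (c3 J) κ s (d a) true p) +
        ∏ a, Il (c3 J) κ s (d a) false p) / 2) * ∏ j, (gw 1 c (s j) * rr (ρ j) (s j))]
  refine Finset.sum_congr rfl fun ξ _ => ?_
  have h2 : ∏ j, rr (ρ j) (SK ξ j) = ∏ p : Pr z y, Wt ρ p (ξ p) := by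
    unfold SK
    rw [prod_rr]
    refine Finset.prod_congr rfl fun p _ => ?_
    unfold Wt
    cases ξ p <;> rfl
  rw [Finset.prod_mul_distrib, ← mul_assoc, lhs_term κ c ξ, h2, ← Finset.prod_mul_distrib]
  exact Finset.prod_congr rfl fun p _ => mul_comm _ _

lemma sum_GR (κ : J → Fin 3 → ℤ) (ρ : J → ℕ → ℕ) (c : ℕ)
    (ξ : Pr z y → Option (J × (Fin k → Bool × Bool))) (p : Pr z y)
    (hk : ∀ j i, ¬ ((p : ℕ) : ℤ) ∣ κ j i) :
    ∑ x ∈ univ.filter (fun x : Option (IK k J) => fgK x = ξ p), Wt ρ p (fgK x) * GK κ c ξ p x =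
      Wt ρ p (ξ p) * TmK κ c ξ p := by
  rw [← sum_GK κ c ξ p hk, Finset.mul_sum]
  refine Finset.sum_congr rfl fun x hx => ?_
  rw [(Finset.mem_filter.1 hx).2]

lemma rhsR (κ : J → Fin 3 → ℤ) (ρ : J → ℕ → ℕ) (c : ℕ)
    (ξ : Pr z y → Option (J × (Fin k → Bool × Bool))) (l : Pr z y → Option (IK k J))
    (h : ∀ p, fgK (l p) = ξ p) :
    (∏ i, (gw (1 / 4 ^ k) c (Dl l i) * rr (ρ i.1.1) (Dl l i))) *
        Pool.Agent.W262.RK.Sym (LK k) (κK k κ) (Dl l) =
      ∏ p, (Wt ρ p (fgK (l p)) * GK κ c ξ p (l p)) := by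
  rw [Finset.prod_mul_distrib, Finset.prod_mul_distrib, ← rhsK κ c ξ l h,
    prod_rr (fun i : IK k J => ρ i.1.1) l]
  have h1 : ∀ p : Pr z y, ((l p).elim 1 fun i => (ρ i.1.1 p : ℝ)) = Wt ρ p (fgK (l p)) := by
    intro p
    unfold Wt fgK
    cases l p <;> rfl
  rw [Finset.prod_congr rfl fun p _ => h1 p]
  ring

theorem expe : Pool.Agent.W307.QF.EXPE := by
  intro J _ _ k κ ρ c z y hz hκ hκz
  classical
  rw [lhsR, sum_Tup, ← Finset.sum_fiberwise univ
    (fun (l : Pr z y → Option (IK k J)) => fun p => fgK (l p))]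
  refine Finset.sum_congr rfl fun ξ _ => ?_
  have h1 : (univ.filter fun l : Pr z y → Option (IK k J) => (fun p => fgK (l p)) = ξ) =
      Fintype.piFinset (fun p => univ.filter (fun x : Option (IK k J) => fgK x = ξ p)) := by
    ext l
    simp only [Finset.mem_filter, Finset.mem_univ, true_and, Fintype.mem_piFinset, funext_iff]
  have hk : ∀ p : Pr z y, ∀ j i, ¬ ((p : ℕ) : ℤ) ∣ κ j i := by
    intro p j i hd
    have hz : z < p := by
      have := p.2
      unfold PS at this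
      exact (Finset.mem_Ioc.1 (Finset.mem_filter.1 this).1).1
    have h3 := Nat.le_of_dvd (Int.natAbs_pos.mpr (hκ j i)) (Int.natCast_dvd.1 hd)
    have h4 := hκz j i
    omega
  rw [h1, Finset.prod_congr rfl fun p _ => (sum_GR κ ρ c ξ p (hk p)).symm,
    Finset.prod_univ_sum]
  refine Finset.sum_congr rfl fun l hl => ?_
  rw [Fintype.mem_piFinset] at hl
  exact (rhsR κ ρ c ξ l fun p => (Finset.mem_filter.1 (hl p)).2).symm

end Pool.Agent.W790.QF
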